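import Mathlib

/-!
# MP_efdca5_co: decay number versus chromatic number of the complement

For `λ ∈ {1, 2}` and every `λ`-edge-connected finite graph `G` that is not isomorphic to `C_3`,
`y_G ≤ 2 χ(Gᶜ) - λ + 1`.
-/

open Finset

namespace Pool.Agent.Results.MP_efdca5_co.DecayBound

variable {V : Type*} [Fintype V]

/-- `y_G(A) = 2 c(G - A) - |A| - 1` -/
noncomputable def yA (G : SimpleGraph V) (A : Finset (Sym2 V)) : ℤ :=
  2 * (Nat.card (G.deleteEdges (A : Set (Sym2 V))).ConnectedComponent : ℤ) - (A.card : ℤ) - 1

/-- `y_G`, the maximum of `y_G(A)` over the sets `A` of edges of `G` (the decay number) -/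
noncomputable def y (G : SimpleGraph V) : ℤ :=
  sSup {z : ℤ | ∃ A : Finset (Sym2 V), (A : Set (Sym2 V)) ⊆ G.edgeSet ∧ z = yA G A}

/-- any two distinct vertices are joined by `k` pairwise edge-disjoint paths -/
def EdgeConnected (G : SimpleGraph V) (k : ℕ) : Prop :=
  ∀ u v : V, u ≠ v → ∃ p : Fin k → G.Path u v, ∀ i j, i ≠ j →
    ∀ e, e ∈ (p i : G.Walk u v).edges → e ∉ (p j : G.Walk u v).edges

theorem two_mul_le_choose (c : ℕ) : 2 * c ≤ c.choose 2 + 3 := by
  rcases Nat.lt_or_ge c 2 with h | h
  · interval_cases c <;> simp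
  · induction c, h using Nat.le_induction with
    | base => simp
    | succ n hn ih =>
      have : (n + 1).choose 2 = n + n.choose 2 := by
        rw [Nat.choose_succ_succ' n 1, Nat.choose_one_right]
      omega

theorem two_mul_le_choose' (c : ℕ) (hc : 4 ≤ c) : 2 * c ≤ c.choose 2 + 2 := by
  induction c, hc using Nat.le_induction with
  | base => decide
  | succ n hn ih =>
    have : (n + 1).choose 2 = n + n.choose 2 := by
      rw [Nat.choose_succ_succ' n 1, Nat.choose_one_right]
    omega

section Core

variable {G : SimpleGraph V} {A : Finset (Sym2 V)} {Q : Type*} [Fintype Q]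

/-- the component of `G - A` containing a vertex -/
noncomputable abbrev comp (G : SimpleGraph V) (A : Finset (Sym2 V)) (v : V) :
    (G.deleteEdges (A : Set (Sym2 V))).ConnectedComponent :=
  (G.deleteEdges (A : Set (Sym2 V))).connectedComponentMk v

theorem mem_of_comp_ne {u v : V} (h : G.Adj u v) (hne : comp G A u ≠ comp G A v) :
    s(u, v) ∈ A := by
  by_contra hc
  apply hne
  apply SimpleGraph.ConnectedComponent.sound
  exact SimpleGraph.Adj.reachable (by rw [SimpleGraph.deleteEdges_adj]; exact ⟨h, by simpa using hc⟩)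

open Classical in
/-- the components met by a colour class -/
noncomputable def S (G : SimpleGraph V) (A : Finset (Sym2 V)) (f : V → Q) (q : Q) :
    Finset (G.deleteEdges (A : Set (Sym2 V))).ConnectedComponent :=
  (univ.filter fun v => f v = q).image (comp G A)

open Classical in
theorem mem_S {f : V → Q} {q : Q} {k : (G.deleteEdges (A : Set (Sym2 V))).ConnectedComponent} :
    k ∈ S G A f q ↔ ∃ v, f v = q ∧ comp G A v = k := by
  simp [S]

open Classical in
/-- the edges of `A` inside a colour class -/
noncomputable def Aq (A : Finset (Sym2 V)) (f : V → Q) (q : Q) : Finset (Sym2 V) :=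
  A.filter fun e => ∀ v ∈ e, f v = q

open Classical in
/-- the edges of `A` inside the colour classes -/
noncomputable def Ain (A : Finset (Sym2 V)) (f : V → Q) : Finset (Sym2 V) :=
  A.filter fun e => ∃ q, ∀ v ∈ e, f v = q

open Classical in
/-- the other edges of `A` -/
noncomputable def Aout (A : Finset (Sym2 V)) (f : V → Q) : Finset (Sym2 V) :=
  A.filter fun e => ¬ ∃ q, ∀ v ∈ e, f v = q

theorem card_in_add_out (f : V → Q) : (Ain A f).card + (Aout A f).card = A.card := by
  classical
  unfold Ain Aout
  exact card_filter_add_card_filter_not _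

/-- lemma 1 -/
theorem card_comp_le (f : V → Q) :
    Nat.card (G.deleteEdges (A : Set (Sym2 V))).ConnectedComponent ≤
      ∑ q, (S G A f q).card := by
  classical
  have h : (univ : Finset (G.deleteEdges (A : Set (Sym2 V))).ConnectedComponent) ⊆
      (univ : Finset Q).biUnion (S G A f) := by
    intro k _
    induction k using SimpleGraph.ConnectedComponent.ind with
    | h v => exact mem_biUnion.2 ⟨f v, mem_univ _, mem_S.2 ⟨v, rfl, rfl⟩⟩
  rw [Nat.card_eq_fintype_card, ← card_univ]
  exact (card_le_card h).trans card_biUnion_le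

/-- the pairs of components met by a colour class are linked by edges of `A` -/
theorem choose_le (f : V → Q) (hf : ∀ u v, u ≠ v → f u = f v → G.Adj u v) (q : Q) :
    (S G A f q).card.choose 2 ≤ (Aq A f q).card := by
  classical
  have hex : ∀ k : S G A f q, ∃ v, f v = q ∧ comp G A v = k := fun k => mem_S.1 k.2
  choose r hr1 hr2 using hex
  have hinj : Function.Injective r := by
    intro k k' h
    apply Subtype.ext
    rw [← hr2 k, ← hr2 k', h]
  have hsub : ((⊤ : SimpleGraph (S G A f q)).edgeFinset.image (Sym2.map r)) ⊆ Aq A f q := by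
    intro e he
    obtain ⟨e', he', rfl⟩ := mem_image.1 he
    induction e' using Sym2.ind with
    | _ k1 k2 =>
      rw [SimpleGraph.mem_edgeFinset, SimpleGraph.mem_edgeSet, SimpleGraph.top_adj] at he'
      rw [Sym2.map_mk]
      unfold Aq
      rw [mem_filter]
      have hne : r k1 ≠ r k2 := fun h => he' (hinj h)
      refine ⟨mem_of_comp_ne (hf _ _ hne (by rw [hr1, hr1])) ?_, ?_⟩
      · rw [hr2, hr2]
        exact fun h => he' (Subtype.ext h)
      · intro v hv
        rw [Sym2.mem_iff] at hv
        rcases hv with rfl | rfl <;> exact hr1 _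
  have h1 := card_le_card hsub
  rw [card_image_of_injective _ (Sym2.map.injective hinj),
    SimpleGraph.card_edgeFinset_top_eq_card_choose_two, Fintype.card_coe] at h1
  exact h1

/-- lemma 2 -/
theorem two_mul_sum_le (f : V → Q) (hf : ∀ u v, u ≠ v → f u = f v → G.Adj u v) :
    2 * ∑ q, (S G A f q).card ≤ (Ain A f).card + 3 * Fintype.card Q := by
  classical
  have h1 : ∀ q ∈ (univ : Finset Q), 2 * (S G A f q).card ≤ (Aq A f q).card + 3 := fun q _ =>
    (two_mul_le_choose _).trans (Nat.add_le_add_right (choose_le f hf q) 3)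
  have h2 : ∑ q, (Aq A f q).card ≤ (Ain A f).card := by
    rw [← card_biUnion]
    · refine card_le_card fun e he => ?_
      obtain ⟨q, -, hq⟩ := mem_biUnion.1 he
      unfold Aq at hq
      unfold Ain
      rw [mem_filter] at hq ⊢
      exact ⟨hq.1, q, hq.2⟩
    · intro q _ q' _ hne
      rw [Function.onFun, disjoint_left]
      intro e he he'
      unfold Aq at he he'
      rw [mem_filter] at he he'
      induction e using Sym2.ind with
      | _ a b =>
        apply hne
        rw [← he.2 a (Sym2.mem_mk_left _ _), ← he'.2 a (Sym2.mem_mk_left _ _)]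
  calc 2 * ∑ q, (S G A f q).card = ∑ q, 2 * (S G A f q).card := mul_sum _ _ _
    _ ≤ ∑ q, ((Aq A f q).card + 3) := sum_le_sum h1
    _ = ∑ q, (Aq A f q).card + 3 * Fintype.card Q := by
        rw [sum_add_distrib, sum_const, card_univ, smul_eq_mul, mul_comm]
    _ ≤ _ := Nat.add_le_add_right h2 _

open Classical in
/-- lemma 3 -/
theorem card_add_le (f : V → Q) (hfs : Function.Surjective f) (D : Finset (Sym2 V))
    (hD : D ⊆ Aout A f)
    (hconn : (G.deleteEdges ((Aout A f \ D : Finset (Sym2 V)) : Set (Sym2 V))).Connected) :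
    Fintype.card Q + Nat.card (G.deleteEdges (A : Set (Sym2 V))).ConnectedComponent ≤
      ∑ q, (S G A f q).card + D.card + 1 := by
  set K := (G.deleteEdges (A : Set (Sym2 V))).ConnectedComponent with hK
  set E1 : Finset (Sym2 (Q ⊕ K)) := (univ : Finset Q).biUnion fun q =>
    (S G A f q).image fun k => s(Sum.inl q, Sum.inr k) with hE1
  set E2 : Finset (Sym2 (Q ⊕ K)) := D.image (Sym2.map fun v => Sum.inr (comp G A v)) with hE2
  set T : SimpleGraph (Q ⊕ K) := SimpleGraph.fromEdgeSet ((E1 ∪ E2 : Finset _) : Set _) with hT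
  have hTe : Nat.card T.edgeSet ≤ ∑ q, (S G A f q).card + D.card := by
    have h1 : T.edgeSet ⊆ ((E1 ∪ E2 : Finset _) : Set _) := by
      rw [hT, SimpleGraph.edgeSet_fromEdgeSet]
      exact Set.sdiff_subset
    calc Nat.card T.edgeSet ≤ Nat.card ((E1 ∪ E2 : Finset (Sym2 (Q ⊕ K))) : Set _) :=
          Nat.card_mono (Finset.finite_toSet _) h1
      _ = (E1 ∪ E2).card := by simp
      _ ≤ E1.card + E2.card := card_union_le _ _
      _ ≤ ∑ q, (S G A f q).card + D.card := by
          refine Nat.add_le_add ?_ card_image_le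
          exact card_biUnion_le.trans (sum_le_sum fun q _ => card_image_le)
  have hadj1 : ∀ v, T.Adj (Sum.inl (f v)) (Sum.inr (comp G A v)) := by
    intro v
    rw [hT, SimpleGraph.fromEdgeSet_adj]
    refine ⟨?_, by simp⟩
    rw [mem_coe, mem_union]
    left
    rw [hE1, mem_biUnion]
    exact ⟨f v, mem_univ _, mem_image.2 ⟨_, mem_S.2 ⟨v, rfl, rfl⟩, rfl⟩⟩
  have hstep : ∀ u v, (G.deleteEdges ((Aout A f \ D : Finset (Sym2 V)) : Set (Sym2 V))).Adj u v →
      T.Reachable (Sum.inr (comp G A u)) (Sum.inr (comp G A v)) := by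
    intro u v h
    rw [SimpleGraph.deleteEdges_adj] at h
    obtain ⟨hG, hn⟩ := h
    by_cases hc : comp G A u = comp G A v
    · rw [hc]
    have hA : s(u, v) ∈ A := mem_of_comp_ne hG hc
    by_cases hin : f u = f v
    · have h1 := (hadj1 u).symm.reachable
      have h2 := (hadj1 v).reachable
      rw [hin] at h1
      exact h1.trans h2
    · have hout : s(u, v) ∈ Aout A f := by
        unfold Aout
        rw [mem_filter]
        refine ⟨hA, ?_⟩
        rintro ⟨q, hq⟩
        exact hin ((hq u (Sym2.mem_mk_left _ _)).trans (hq v (Sym2.mem_mk_right _ _)).symm)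
      have hDm : s(u, v) ∈ D := by
        by_contra hcon
        exact hn (mem_coe.2 (mem_sdiff.2 ⟨hout, hcon⟩))
      refine SimpleGraph.Adj.reachable ?_
      rw [hT, SimpleGraph.fromEdgeSet_adj]
      refine ⟨?_, fun h => hc (Sum.inr_injective h)⟩
      rw [mem_coe, mem_union]
      right
      rw [hE2, mem_image]
      exact ⟨_, hDm, rfl⟩
  have hreach : ∀ u v, T.Reachable (Sum.inr (comp G A u)) (Sum.inr (comp G A v)) := by
    intro u v
    obtain ⟨w⟩ := hconn.preconnected u v
    induction w with
    | nil => exact SimpleGraph.Reachable.refl _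
    | cons h _ ih => exact (hstep _ _ h).trans ih
  have hTc : T.Connected := by
    have hne : Nonempty V := hconn.nonempty
    obtain ⟨v0⟩ := hne
    have hall : ∀ x : Q ⊕ K, T.Reachable x (Sum.inr (comp G A v0)) := by
      rintro (q | k)
      · obtain ⟨v, rfl⟩ := hfs q
        exact (hadj1 v).reachable.trans (hreach v v0)
      · induction k using SimpleGraph.ConnectedComponent.ind with
        | h v => exact hreach v v0
    exact { preconnected := fun x z => (hall x).trans (hall z).symm, nonempty := ⟨Sum.inr (comp G A v0)⟩ }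
  have h1 := hTc.card_vert_le_card_edgeSet_add_one
  rw [Nat.card_sum, Nat.card_eq_fintype_card (α := Q)] at h1
  have h2 : Nat.card K = Nat.card (G.deleteEdges (A : Set (Sym2 V))).ConnectedComponent := rfl
  rw [← h2]
  omega

end Core

theorem connected_of {G : SimpleGraph V} [Nonempty V] {k : ℕ} (hk : 1 ≤ k)
    (h : EdgeConnected G k) : G.Connected := by
  refine { preconnected := fun u v => ?_, nonempty := inferInstance }
  by_cases huv : u = v
  · rw [huv]
  · obtain ⟨p, -⟩ := h u v huv
    exact ⟨(p ⟨0, hk⟩ : G.Walk u v)⟩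

theorem connected_delete {G : SimpleGraph V} [Nonempty V] (h : EdgeConnected G 2) (e : Sym2 V) :
    (G.deleteEdges {e}).Connected := by
  refine { preconnected := fun u v => ?_, nonempty := inferInstance }
  by_cases huv : u = v
  · rw [huv]
  · obtain ⟨p, hp⟩ := h u v huv
    have : ∃ w : G.Walk u v, e ∉ w.edges := by
      by_cases he : e ∈ (p 0 : G.Walk u v).edges
      · exact ⟨p 1, hp 0 1 (by decide) e he⟩
      · exact ⟨p 0, he⟩
    obtain ⟨w, hw⟩ := this
    exact ⟨w.toDeleteEdges {e} (fun e' he' h' => hw (by rw [Set.mem_singleton_iff] at h'; rwa [← h']))⟩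

/-- complete graphs -/
theorem complete_case {G : SimpleGraph V} [Nonempty V] (hG : EdgeConnected G 2)
    (h3 : ¬ Nonempty (G ≃g SimpleGraph.cycleGraph 3)) (htop : G = ⊤) (A : Finset (Sym2 V)) :
    2 * Nat.card (G.deleteEdges (A : Set (Sym2 V))).ConnectedComponent ≤ A.card + 2 := by
  classical
  have hadj : ∀ a b, a ≠ b → G.Adj a b := fun a b h => by
    rw [htop]
    exact h
  set c := Nat.card (G.deleteEdges (A : Set (Sym2 V))).ConnectedComponent with hc
  have hsurj : ∀ k : (G.deleteEdges (A : Set (Sym2 V))).ConnectedComponent,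
      ∃ v, comp G A v = k := by
    intro k
    induction k using SimpleGraph.ConnectedComponent.ind with
    | h v => exact ⟨v, rfl⟩
  choose r hr using hsurj
  have hinj : Function.Injective r := by
    intro k k' h
    rw [← hr k, ← hr k', h]
  set E0 : Finset (Sym2 V) := (⊤ : SimpleGraph
    (G.deleteEdges (A : Set (Sym2 V))).ConnectedComponent).edgeFinset.image (Sym2.map r) with hE0
  have hE0c : E0.card = c.choose 2 := by
    rw [hE0, card_image_of_injective _ (Sym2.map.injective hinj),
      SimpleGraph.card_edgeFinset_top_eq_card_choose_two, hc, Nat.card_eq_fintype_card]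
  have hsub : E0 ⊆ A := by
    intro e he
    obtain ⟨e', he', rfl⟩ := mem_image.1 he
    induction e' using Sym2.ind with
    | _ k1 k2 =>
      rw [SimpleGraph.mem_edgeFinset, SimpleGraph.mem_edgeSet, SimpleGraph.top_adj] at he'
      rw [Sym2.map_mk]
      refine mem_of_comp_ne (hadj _ _ fun h => he' (hinj h)) ?_
      rw [hr, hr]
      exact he'
  have hle := card_le_card hsub
  rw [hE0c] at hle
  have h1 := two_mul_le_choose c
  by_cases hc1 : c ≤ 1
  · omega
  push Not at hc1
  by_cases hlt : ∃ v, v ∉ Set.range r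
  · obtain ⟨v, hv⟩ := hlt
    have hK : Nontrivial (G.deleteEdges (A : Set (Sym2 V))).ConnectedComponent := by
      rw [← Fintype.one_lt_card_iff_nontrivial, ← Nat.card_eq_fintype_card]
      exact hc1
    obtain ⟨k', hk'⟩ := exists_ne (comp G A v)
    have hmem : s(v, r k') ∈ A := by
      refine mem_of_comp_ne (hadj _ _ fun h => hv ⟨k', h.symm⟩) ?_
      rw [hr]
      exact hk'.symm
    have hnot : s(v, r k') ∉ E0 := by
      intro he
      obtain ⟨e', -, he''⟩ := mem_image.1 he
      induction e' using Sym2.ind with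
      | _ k1 k2 =>
        rw [Sym2.map_mk] at he''
        have : v ∈ s(r k1, r k2) := by
          rw [he'']
          exact Sym2.mem_mk_left _ _
        rw [Sym2.mem_iff] at this
        rcases this with rfl | rfl
        · exact hv ⟨k1, rfl⟩
        · exact hv ⟨k2, rfl⟩
    have h2 : E0.card + 1 ≤ A.card := by
      rw [← card_insert_of_notMem hnot]
      exact card_le_card (insert_subset hmem hsub)
    omega
  · push Not at hlt
    have hrs : Function.Surjective r := fun v => hlt v
    have hcard : c = Fintype.card V := by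
      rw [hc, Nat.card_eq_fintype_card]
      exact Fintype.card_of_bijective ⟨hinj, hrs⟩
    by_cases hc4 : 4 ≤ c
    · have := two_mul_le_choose' c hc4
      omega
    push Not at hc4
    exfalso
    interval_cases hcc : c
    · -- two vertices
      obtain ⟨u, v, huv⟩ := Fintype.one_lt_card_iff.1 (by omega : 1 < Fintype.card V)
      have huniv : ({u, v} : Finset V) = univ := by
        refine Finset.eq_univ_of_card _ ?_
        rw [card_pair huv, ← hcard]
      have hedge : ∀ w : G.Walk u v, s(u, v) ∈ w.edges := by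
        intro w
        cases w with
        | nil => exact absurd rfl huv
        | @cons _ x _ h q =>
          have hx : x ∈ ({u, v} : Finset V) := by
            rw [huniv]
            exact mem_univ _
          rw [mem_insert, mem_singleton] at hx
          rcases hx with rfl | rfl
          · exact absurd rfl h.ne
          · simp
      obtain ⟨p, hp⟩ := hG u v huv
      exact hp 0 1 (by decide) _ (hedge _) (hedge _)
    · apply h3
      have e : V ≃ Fin 3 := Fintype.equivFinOfCardEq hcard.symm
      rw [htop, SimpleGraph.cycleGraph_three_eq_top]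
      exact ⟨SimpleGraph.Iso.completeGraph e⟩

theorem bound (G : SimpleGraph V) [Nonempty V] (lam : ℕ) (hlam : lam = 1 ∨ lam = 2)
    (hG : EdgeConnected G lam) (h3 : ¬ Nonempty (G ≃g SimpleGraph.cycleGraph 3))
    (A : Finset (Sym2 V)) :
    yA G A ≤ 2 * (ENat.toNat Gᶜ.chromaticNumber : ℤ) - lam + 1 := by
  classical
  obtain ⟨C⟩ := SimpleGraph.colorable_chromaticNumber_of_fintype Gᶜ
  set N := ENat.toNat Gᶜ.chromaticNumber with hN
  set f : V → Set.range C := Set.rangeFactorization C with hf
  have hfs : Function.Surjective f := Set.rangeFactorization_surjective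
  have hfG : ∀ u v, u ≠ v → f u = f v → G.Adj u v := by
    intro u v huv h
    by_contra hcon
    have h1 : Gᶜ.Adj u v := (SimpleGraph.compl_adj _ _ _).2 ⟨huv, hcon⟩
    exact C.valid h1 (Subtype.ext_iff.1 h)
  have hQ : Fintype.card (Set.range C) ≤ N := by
    have := Fintype.card_le_of_injective (Subtype.val : Set.range C → Fin N)
      Subtype.val_injective
    rwa [Fintype.card_fin] at this
  have hQ1 : 1 ≤ Fintype.card (Set.range C) := by
    obtain ⟨v⟩ := ‹Nonempty V›
    exact Fintype.card_pos_iff.2 ⟨f v⟩
  have e0 := card_in_add_out (A := A) f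
  have e1 := card_comp_le (G := G) (A := A) f
  have e2 := two_mul_sum_le (G := G) (A := A) f hfG
  unfold yA
  rcases hlam with rfl | rfl
  · have e3 := card_add_le (G := G) (A := A) f hfs (Aout A f) (Subset.refl _) (by
      rw [sdiff_self]
      simpa using connected_of le_rfl hG)
    push_cast
    omega
  · by_cases hout : (Aout A f).Nonempty
    · obtain ⟨e, he⟩ := hout
      have e3 := card_add_le (G := G) (A := A) f hfs ((Aout A f).erase e) (erase_subset _ _) (by
        rw [sdiff_erase he]
        simpa using connected_delete hG e)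
      rw [card_erase_of_mem he] at e3
      have hpos : 0 < (Aout A f).card := card_pos.2 ⟨e, he⟩
      push_cast
      omega
    · rw [not_nonempty_iff_eq_empty] at hout
      have e3 := card_add_le (G := G) (A := A) f hfs ∅ (empty_subset _) (by
        rw [hout]
        simpa using connected_of (by norm_num) hG)
      rw [hout] at e0
      simp only [card_empty] at e0 e3
      by_cases hQ2 : 2 ≤ Fintype.card (Set.range C)
      · push_cast
        omega
      · have hone : Fintype.card (Set.range C) = 1 := by omega
        have htop : G = ⊤ := by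
          ext u v
          rw [SimpleGraph.top_adj]
          refine ⟨fun h => h.ne, fun h => hfG u v h ?_⟩
          have := Fintype.card_le_one_iff.1 hone.le
          exact this _ _
        have := complete_case hG h3 htop A
        push_cast
        omega

/-- For `λ ∈ {1, 2}` every `λ`-edge-connected finite graph `G` not isomorphic to `C_3` satisfies
`y_G ≤ 2 χ(Gᶜ) - λ + 1`; here `y_G` is the maximum of `y_G(A)` over the sets `A` of edges of `G`. -/
theorem result {V : Type*} [Fintype V] [Nonempty V] (G : SimpleGraph V) (lam : ℕ)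
    (hlam : lam = 1 ∨ lam = 2) (hG : EdgeConnected G lam)
    (h3 : ¬ Nonempty (G ≃g SimpleGraph.cycleGraph 3)) :
    IsGreatest {z : ℤ | ∃ A : Finset (Sym2 V), (A : Set (Sym2 V)) ⊆ G.edgeSet ∧ z = yA G A} (y G) ∧
    y G ≤ 2 * (ENat.toNat Gᶜ.chromaticNumber : ℤ) - lam + 1 := by
  have hne : {z : ℤ | ∃ A : Finset (Sym2 V), (A : Set (Sym2 V)) ⊆ G.edgeSet ∧
      z = yA G A}.Nonempty := ⟨_, ∅, by simp, rfl⟩
  have hub : ∀ z ∈ {z : ℤ | ∃ A : Finset (Sym2 V), (A : Set (Sym2 V)) ⊆ G.edgeSet ∧ z = yA G A},
      z ≤ 2 * (ENat.toNat Gᶜ.chromaticNumber : ℤ) - lam + 1 := by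
    rintro _ ⟨A, -, rfl⟩
    exact bound G lam hlam hG h3 A
  refine ⟨⟨Int.csSup_mem hne ⟨_, hub⟩, fun z hz => ?_⟩, csSup_le hne hub⟩
  exact le_csSup ⟨_, hub⟩ hz

end Pool.Agent.Results.MP_efdca5_co.DecayBound
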